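import Pool.Agent.MP_826def_gt.BN.Tower
import Pool.Agent.MP_826def_gt.BG.Fm

/-! From the Gysin tower to the absence of odd maps. -/

namespace Pool.Agent.MP_826def_gt.BN

open Set Topology Pool.Agent.MP_826def_gt.MU

noncomputable section

variable [Fact Core]

theorem vanish (A : Api) {a : ℕ → ℕ → UU} (ha : IsFGL a) {r N : ℕ} (i₀ : Fin r) {m : Fin r → ℕ}
    (hS : Sec r i₀ N m) :
    pullR (tow (sq N i₀) r).p (∏ i, (xs r N N i₀ - xs r N N i) ^ m i) = 0 := by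
  obtain ⟨σ, h1, h2⟩ := sections i₀ hS
  have hL : ∀ i, (Lt i₀ N i).Rk 1 := fun i x => A.bun.rk_taut N N _
  have hH : ∀ i, ((Lt i₀ N i).hom (Lt i₀ N i₀)).Rk 1 := fun i =>
    A.bun.rk_hom _ _ 1 1 (hL i) (hL i₀)
  have h3 := A.eul.nz (fun a : (i : Fin r) × Fin (m i) => (Lt i₀ N a.1).hom (Lt i₀ N i₀)) σ h1 h2
  rw [Fintype.prod_sigma] at h3
  simp only [Finset.prod_const, Finset.card_univ, Fintype.card_fin] at h3
  rw [map_prod]
  refine zero_dvd_iff.1 (h3 ▸ Finset.prod_dvd_prod_of_dvd _ _ fun i _ => ?_)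
  rw [map_pow, map_sub]
  refine pow_dvd_pow_of_dvd ?_ _
  have e : ∀ i, pullR (tow (sq N i₀) r).p (xs r N N i) = eu (Lt i₀ N i) := fun i => A.eul.pull _ _
  rw [e, e, ha.tens _ _ _ (hH i) (hL i) (hL i₀) (A.bun.tens_hom _ _ (hL i))]
  refine ((BG.sFm _ _ _ _).2.2.2 (fun k => ?_) (fun k l => ?_) (ha.nil _ (hH i))
    (ha.nil _ (hL i))).2.2.2.1
  · rw [cf, ha.fg.unit]
    split_ifs
    exacts [map_one _, map_zero _]
  · rw [cf, cf, ha.fg.symm]

theorem noSec (A : Api) (hH : S_H) (hR : S_Reg) (hF : S_FGL) (hG : S_Gys) (hC : S_CPr) :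
    S_NoSec := by
  intro r i₀ i₁ hi
  obtain ⟨c, hc⟩ := hH r i₀ i₁ hi
  refine ⟨c, fun L j' s h1 h2 h3 hS => ?_⟩
  obtain ⟨a, ha⟩ := hF
  obtain ⟨γ, hγ⟩ := hG
  obtain ⟨N, hN⟩ : ∃ N, N = 2 ^ L * j' + s + 1 := ⟨_, rfl⟩
  specialize hc L j' s h1 h2 h3
  rw [← hN] at hc hS
  obtain ⟨c1, c2, c3⟩ := hC r N N le_rfl
  let Y := tow (sq N i₀)
  let π : ∀ k, Mod (Y k).p →ₗ[h (Bs r N)] Mod (Y (k + 1)).p := fun k =>
    { toFun := Hpull (sphP ((sq N i₀ k).pull (Y k).p))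
      map_add' := map_add _
      map_smul' := fun b y => (A.act.pull (Y k).p _ b).2 y }
  let γ' : ∀ k, Mod (Y (k + 1)).p →ₗ[h (Bs r N)] Mod (Y k).p := fun k =>
    { toFun := γ ((sq N i₀ k).pull (Y k).p) (sphP _) (sphT _)
      map_add' := map_add _
      map_smul' := fun b y => hγ.lin _ _ _ (Y k).p (isSph _) b y }
  let η : h (Bs r N) →ₗ[h (Bs r N)] Mod (Y 0).p :=
    { toFun := fun b => ((b, 0) : H (Bs r N))
      map_add' := fun _ _ => Prod.ext rfl (add_zero _).symm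
      map_smul' := fun b y => Prod.ext rfl (map_zero (act _ b)).symm }
  let ρ : Mod (Y 0).p →ₗ[h (Bs r N)] h (Bs r N) :=
    { toFun := fun y => (y : H (Bs r N)).1
      map_add' := fun _ _ => rfl
      map_smul' := fun _ _ => rfl }
  refine hc UU (h (Bs r N)) (Mod (toPt Unit)) a (toU _) (xs r N N) (fun k => Mod (Y k).p)
    (Hpull (toPt (Bs r N))) η ρ π γ' ha.fg (hR a ha (r + 1)).1 (hR a ha r).2.1 (hR a ha r).2.2 c1 c2
    c3 (fun u n => ?_) (fun _ => rfl) (fun k => ?_) ?_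
  · exact ((A.act.pull (toPt Unit) (toPt (Bs r N)) u).2 n).trans
      (congrArg (fun φ : AddMonoid.End (H (Bs r N)) => φ (Hpull (toPt (Bs r N)) n))
        (A.act.base (ContinuousMap.id (Bs r N)) (toPt (Bs r N)) u).2.symm)
  · have hL : ((taut N N).pull (ev (ix i₀ k))).Rk 1 := fun x => A.bun.rk_taut N N _
    have e1 : eu (sq N i₀ k) = Fm (cf (toU _) a) (xs r N N k) (xs r N N k) := by
      rw [ha.tens _ _ _ hL hL (A.bun.rk_tm _ _) (A.bun.tens_tm _ _), ix_coe]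
      rfl
    have e2 : (fun y : Mod (Y k).p => Fm (cf (toU _) a) (xs r N N k) (xs r N N k) • y) =
        Heul ((sq N i₀ k).pull (Y k).p) :=
      funext fun y => by
        rw [← e1]
        exact ((A.eul.act (Y k).p _).2 y).symm
    rw [e2]
    exact (hγ.exact _ _ _ (isSph _)).2
  · have e := vanish A ha i₀ hS
    generalize (∏ i, (xs r N N i₀ - xs r N N i) ^ ex i₀ i₁ (2 ^ L * j') i) = z at e ⊢
    rw [← mul_one z, ← smul_eq_mul, map_smul, map_smul, Mod.smul_def]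
    have e' := (A.act.base (ContinuousMap.id (Y r).T) (Y r).p z).2
    rw [e, map_zero] at e'
    exact congrArg (fun φ : AddMonoid.End (H (Y r).T) => φ _) e'.symm

end

end Pool.Agent.MP_826def_gt.BN
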