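import Pool.Agent.MP_826def_gt.BI.FinalOf

/-! The quantitative lower bound for the topological complexity. -/

namespace Pool.Agent.MP_826def_gt.BN

open Pool.Agent.MP_826def_gt.MU

theorem quant (hT : S_TC) (hN : S_NoSec) (r : ℕ) (hr : 2 ≤ r) : ∃ C : ℕ,
    ∀ (G : Type) [Group G] [Fintype G], Even (Fintype.card G) → ∀ k : ℕ,
      ((r * k : ℕ) : ℕ∞) ≤ H44.TC r (H44.BG G k) + ((C * (1 + Nat.log 2 k) : ℕ) : ℕ∞) := by
  have hi : (⟨0, by omega⟩ : Fin r) ≠ ⟨1, by omega⟩ := by simp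
  obtain ⟨c, hc⟩ := hN r _ _ hi
  refine ⟨r * ((4 * r + 2) * c + 5), fun G _ _ hG k => ?_⟩
  have := Fact.mk Nat.prime_two
  obtain ⟨τ, hτ⟩ := exists_prime_orderOf_dvd_card 2 hG.two_dvd
  have t1 : τ ≠ 1 := fun e => by simp [e] at hτ
  have t2 : τ * τ = 1 := by rw [← pow_two, ← hτ, pow_orderOf_eq_one]
  obtain ⟨s, hs⟩ : ∃ s, s = c * (1 + Nat.log 2 k) := ⟨_, rfl⟩
  obtain ⟨L, hL⟩ : ∃ L, L = Nat.log 2 (r * s) + 1 := ⟨_, rfl⟩
  have l1 : r * s < 2 ^ L := hL ▸ Nat.lt_pow_succ_log_self one_lt_two _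
  have l2 : 2 ^ L ≤ 2 * (r * s) + 2 := by
    rcases Nat.eq_zero_or_pos (r * s) with e | e
    · simp [hL, e]
    · have := Nat.pow_log_le_self 2 e.ne'
      rw [hL, pow_succ]
      omega
  obtain ⟨q, hq⟩ : ∃ q, q = (k + 1 - 2 * (s + 1)) / (2 * 2 ^ L) := ⟨_, rfl⟩
  have q1 : 2 * 2 ^ L * q ≤ k + 1 - 2 * (s + 1) := hq ▸ Nat.mul_div_le _ _
  have q2 : k + 1 - 2 * (s + 1) < 2 * 2 ^ L * (q + 1) := hq ▸ Nat.lt_mul_div_succ _ (by positivity)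
  rw [mul_add (2 * 2 ^ L), mul_one, mul_assoc 2] at q2
  rw [mul_assoc] at q1
  have h1 : ((2 * (r * (2 ^ L * q)) : ℕ) : ℕ∞) ≤ H44.TC r (H44.BG G k) := by
    refine le_iInf₂ fun n hn => Nat.cast_le.2 (not_lt.1 fun e => ?_)
    have q0 : 1 ≤ q := Nat.pos_of_ne_zero fun e0 => by simp [e0] at e
    have q3 : 1 ≤ 2 ^ L * q := Nat.mul_pos (by positivity) q0
    refine hc L q s q0 l1 (hs ▸ Nat.mul_le_mul_left _ (Nat.add_le_add_left
      (Nat.log_mono_right (by omega)) _)) (hT G τ t1 t2 r _ _ k n _ (by simp [ex]) (by omega) ?_ hn)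
    rw [BI.sum_ex hi]
    exact e
  refine le_trans ?_ (add_le_add h1 le_rfl)
  rw [← Nat.cast_add, Nat.cast_le, mul_left_comm, mul_assoc r, ← mul_add]
  refine Nat.mul_le_mul_left _ ?_
  have : ((4 * r + 2) * c + 5) * (1 + Nat.log 2 k) = 4 * (r * s) + 2 * s + 5 + 5 * Nat.log 2 k := by
    rw [hs]
    ring
  omega

end Pool.Agent.MP_826def_gt.BN
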