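import Pool.Agent.MP_826def_gt.MU.Spec

/-! The tower of sphere bundles over a product of projective spaces. -/

namespace Pool.Agent.MP_826def_gt.BN

open Set Topology Pool.Agent.MP_826def_gt.MU

noncomputable section

/-- Compact spaces over `B`. -/
structure Ov (B : Type) [TopologicalSpace B] : Type 1 where
  T : Type
  [i1 : TopologicalSpace T]
  [i2 : CompactSpace T]
  [i3 : T2Space T]
  p : C(T, B)

instance {B : Type} [TopologicalSpace B] (Y : Ov B) : TopologicalSpace Y.T := Y.i1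
instance {B : Type} [TopologicalSpace B] (Y : Ov B) : CompactSpace Y.T := Y.i2
instance {B : Type} [TopologicalSpace B] (Y : Ov B) : T2Space Y.T := Y.i3

/-- The sphere bundle. -/
abbrev Sph {K : Type} [TopologicalSpace K] (ξ : Bun K) : Type :=
  {z : K × ξ.W // ξ.p z.1 z.2 = z.2 ∧ ‖z.2‖ = 1}

theorem sph_cpt {K : Type} [TopologicalSpace K] [CompactSpace K] (ξ : Bun K) :
    CompactSpace (Sph ξ) := by
  refine isCompact_iff_compactSpace.1 (?_ : IsCompact {z : K × ξ.W | _})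
  refine (isCompact_univ.prod (isCompact_sphere (0 : ξ.W) 1)).of_isClosed_subset ?_
    fun z hz => ⟨trivial, by simpa using hz.2⟩
  exact (isClosed_eq ((ξ.p.continuous.comp continuous_fst).clm_apply continuous_snd)
    continuous_snd).inter (isClosed_eq continuous_snd.norm continuous_const)

/-- The projection of the sphere bundle. -/
def sphP {K : Type} [TopologicalSpace K] (ξ : Bun K) : C(Sph ξ, K) :=
  ⟨fun z => z.1.1, continuous_fst.comp continuous_subtype_val⟩

/-- The tautological section on the sphere bundle. -/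
def sphT {K : Type} [TopologicalSpace K] (ξ : Bun K) : C(Sph ξ, ξ.W) :=
  ⟨fun z => z.1.2, continuous_snd.comp continuous_subtype_val⟩

theorem isSph {K : Type} [TopologicalSpace K] (ξ : Bun K) : IsSph ξ (sphP ξ) (sphT ξ) :=
  ⟨IsEmbedding.subtypeVal, Subtype.range_coe_subtype⟩

/-- The tower of sphere bundles. -/
def tow {B : Type} [TopologicalSpace B] [CompactSpace B] [T2Space B] (ξ : ℕ → Bun B) : ℕ → Ov B
  | 0 => ⟨B, ContinuousMap.id B⟩
  | k + 1 => @Ov.mk B _ (Sph ((ξ k).pull (tow ξ k).p)) _ (sph_cpt _) _ ((tow ξ k).p.comp (sphP _))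

/-- The base. -/
abbrev Bs (r N : ℕ) : Type := Fin r → CP N N

/-- The coordinates of the base. -/
abbrev ev {r N : ℕ} (i : Fin r) : C(Bs r N, CP N N) := ⟨fun b => b i, continuous_apply i⟩

/-- The index of a level. -/
def ix {r : ℕ} (i₀ : Fin r) (k : ℕ) : Fin r := if h : k < r then ⟨k, h⟩ else i₀

theorem ix_coe {r : ℕ} (i₀ k : Fin r) : ix i₀ k = k := dif_pos k.2

/-- The squares of the tautological bundles. -/
abbrev sq {r : ℕ} (N : ℕ) (i₀ : Fin r) (k : ℕ) : Bun (Bs r N) := tm (ev (ix i₀ k)) (ev (ix i₀ k))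

theorem sp_norm {N : ℕ} (u : Sp N) : ‖u.1‖ = 1 := by simp

theorem sp_ne {N : ℕ} (u : Sp N) : u.1 ≠ 0 := fun e => by
  have := sp_norm u
  rw [e, norm_zero] at this
  exact zero_ne_one this

/-- The line through a unit vector. -/
def ln {N : ℕ} (u : Sp N) : CP N N := ⟨pj u.1, u.1, sp_norm u, fun i hi => absurd i.2 (by omega), rfl⟩

theorem ln_cont {N : ℕ} : Continuous (ln (N := N)) :=
  (pj_cont.comp_continuous continuous_subtype_val sp_ne).subtype_mk _

/-- The matrix `a bᵀ`. -/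
def ou {N : ℕ} (a b : Fin N → ℂ) : Fin N → Fin N → ℂ := fun i j => a i * b j

theorem ou_norm {N : ℕ} (u : Sp N) : ‖ou u.1 u.1‖ = 1 := by
  have h := sp_norm u
  refine le_antisymm ((pi_norm_le_iff_of_nonneg zero_le_one).2 fun i =>
    (pi_norm_le_iff_of_nonneg zero_le_one).2 fun j => ?_) ?_
  · rw [ou, norm_mul]
    exact mul_le_one₀ ((norm_le_pi_norm _ i).trans h.le) (norm_nonneg _)
      ((norm_le_pi_norm _ j).trans h.le)
  · by_contra hc
    have : ‖u.1‖ < 1 := (pi_norm_lt_iff one_pos).2 fun i => by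
      have h1 := ((norm_le_pi_norm _ i).trans (norm_le_pi_norm (ou u.1 u.1) i)).trans_lt
        (not_le.1 hc)
      rw [ou, norm_mul] at h1
      nlinarith [norm_nonneg (u.1 i)]
    exact this.ne h

theorem mv2_pj {N : ℕ} (u : Fin N → ℂ) (M : Fin N → Fin N → ℂ) :
    ∃ c : ℂ, mv2 (mv (pj u)) (mv (pj u)) M = c • ou u u := by
  refine ⟨∑ l, ∑ k, (starRingEnd ℂ) (u l) * (starRingEnd ℂ) (u k) * M k l /
    ((∑ k, Complex.normSq (u k) : ℝ) : ℂ) ^ 2, funext fun i => funext fun j => ?_⟩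
  rw [mv2_mv, Pi.smul_apply, Pi.smul_apply, smul_eq_mul, Finset.sum_mul]
  refine Finset.sum_congr rfl fun l _ => ?_
  rw [Finset.mul_sum, Finset.sum_mul]
  refine Finset.sum_congr rfl fun k _ => ?_
  rw [pj, pj, ou]
  ring

theorem mv2_ou {N : ℕ} {u : Fin N → ℂ} (hu : u ≠ 0) :
    mv2 (mv (pj u)) (mv (pj u)) (ou u u) = ou u u := by
  funext i j
  have e := fun i => (mv_apply (pj u) u i).symm.trans (congrFun (mv_pj_self hu) i)
  rw [mv2_mv]
  simp only [ou, ← mul_assoc, ← Finset.sum_mul, e]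
  simp only [mul_comm _ (u i), mul_assoc, ← Finset.mul_sum, e]

theorem ou_inj {N : ℕ} {u v : Fin N → ℂ} (hu : u ≠ 0) (e : ou u u = ou v v) : v = u ∨ v = -u := by
  obtain ⟨i, hi⟩ := Function.ne_iff.1 hu
  have h1 : ∀ j, u i * u j = v i * v j := fun j => congrFun (congrFun e i) j
  rcases mul_self_eq_mul_self_iff.1 (h1 i) with h | h
  · exact Or.inl (funext fun j => (mul_left_cancel₀ hi ((h1 j).trans (by rw [← h]))).symm)
  · refine Or.inr (funext fun j => mul_left_cancel₀ hi ?_)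
    rw [Pi.neg_apply, mul_neg, h1 j, h]
    ring

theorem pj_smul {N : ℕ} (u : Fin N → ℂ) {c : ℂ} (hc : ‖c‖ = 1) : pj (c • u) = pj u := by
  have h1 : Complex.normSq c = 1 := by rw [Complex.normSq_eq_norm_sq, hc, one_pow]
  have h2 : c * (starRingEnd ℂ) c = 1 := by rw [Complex.mul_conj, h1, Complex.ofReal_one]
  funext i j
  simp only [pj, Pi.smul_apply, smul_eq_mul, map_mul, h1, one_mul]
  rw [mul_mul_mul_comm, h2, one_mul]

theorem co_cont {r N : ℕ} (i : Fin r) (a : Fin N) : Continuous fun u : Fin r → Sp N => (u i).1 a :=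
  (continuous_apply a).comp (continuous_subtype_val.comp (continuous_apply i))

variable {r N : ℕ} (i₀ : Fin r)

/-- The map from the product of spheres to the levels of the tower. -/
def Ph : ∀ k : ℕ, {Φ : C(Fin r → Sp N, (tow (sq N i₀) k).T) //
    ∀ u i, (tow (sq N i₀) k).p (Φ u) i = ln (u i)}
  | 0 => ⟨⟨fun u i => ln (u i), continuous_pi fun i => ln_cont.comp (continuous_apply i)⟩,
      fun _ _ => rfl⟩
  | k + 1 => ⟨⟨fun u => (⟨((Ph k).1 u, ou (u (ix i₀ k)).1 (u (ix i₀ k)).1), by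
        show mv2 (mv ((tow (sq N i₀) k).p ((Ph k).1 u) (ix i₀ k)).1)
          (mv ((tow (sq N i₀) k).p ((Ph k).1 u) (ix i₀ k)).1) _ = _
        rw [(Ph k).2]
        exact mv2_ou (sp_ne _), ou_norm _⟩ : Sph ((sq N i₀ k).pull (tow (sq N i₀) k).p)),
      ((Ph k).1.continuous.prodMk (continuous_pi fun a => continuous_pi fun b =>
        (co_cont _ a).mul (co_cont _ b))).subtype_mk _⟩, (Ph k).2⟩

theorem Ph_inj (u v : Fin r → Sp N) : ∀ k : ℕ, (Ph i₀ k).1 u = (Ph i₀ k).1 v →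
    ∀ i : Fin r, (i : ℕ) < k → ou (u i).1 (u i).1 = ou (v i).1 (v i).1
  | 0, _, _, hi => absurd hi (Nat.not_lt_zero _)
  | k + 1, e, i, hi => by
    have e' := congrArg (fun z : Sph ((sq N i₀ k).pull (tow (sq N i₀) k).p) => z.1) e
    rcases Nat.lt_succ_iff_lt_or_eq.1 hi with h | h
    · exact Ph_inj u v k (congrArg Prod.fst e') i h
    · have := congrArg Prod.snd e'
      rw [← ix_coe i₀ i, h]
      exact this

theorem Ph_congr (u v : Fin r → Sp N) (h : ∀ i, ln (u i) = ln (v i)) : ∀ k : ℕ, k ≤ r →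
    (∀ i : Fin r, (i : ℕ) < k → u i = v i) → (Ph i₀ k).1 u = (Ph i₀ k).1 v
  | 0, _, _ => funext h
  | k + 1, hk, e => by
    refine Subtype.ext (Prod.ext (Ph_congr u v h k (by omega) fun i hi => e i (by omega)) ?_)
    show ou (u (ix i₀ k)).1 (u (ix i₀ k)).1 = ou (v (ix i₀ k)).1 (v (ix i₀ k)).1
    rw [e (ix i₀ k) (by rw [ix, dif_pos (show k < r by omega)]; exact Nat.lt_succ_self k)]

theorem Ph_surj : ∀ k : ℕ, k ≤ r → Function.Surjective (Ph (N := N) i₀ k).1
  | 0, _ => fun q : Bs r N => by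
    choose u h1 _ h2 using fun i => (q i).2
    exact ⟨fun i => ⟨u i, by simpa using h1 i⟩, funext fun i => Subtype.ext (h2 i)⟩
  | k + 1, hk => fun z : Sph ((sq N i₀ k).pull (tow (sq N i₀) k).p) => by
    obtain ⟨⟨y, w⟩, h1, h2⟩ := z
    obtain ⟨u, rfl⟩ := Ph_surj k (by omega) y
    have h3 : mv2 (mv ((tow (sq N i₀) k).p ((Ph i₀ k).1 u) (ix i₀ k)).1)
      (mv ((tow (sq N i₀) k).p ((Ph i₀ k).1 u) (ix i₀ k)).1) w = w := h1
    rw [(Ph i₀ k).2] at h3
    obtain ⟨c, hc⟩ := mv2_pj (u (ix i₀ k)).1 w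
    replace hc : w = c • ou (u (ix i₀ k)).1 (u (ix i₀ k)).1 := h3.symm.trans hc
    have h4 : ‖w‖ = 1 := h2
    rw [hc, norm_smul, ou_norm, mul_one] at h4
    obtain ⟨d, rfl⟩ := IsAlgClosed.exists_eq_mul_self c
    have h5 : ‖d‖ = 1 := by
      rw [norm_mul] at h4
      nlinarith [norm_nonneg d]
    let v : Sp N := ⟨d • (u (ix i₀ k)).1, by simp [norm_smul, h5]⟩
    refine ⟨Function.update u (ix i₀ k) v, Subtype.ext (Prod.ext (Ph_congr i₀ _ _ (fun i => ?_) k
      (by omega) fun i hi => Function.update_of_ne (fun e => ?_) _ _) ?_)⟩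
    · rcases eq_or_ne i (ix i₀ k) with rfl | h
      · rw [Function.update_self]
        exact Subtype.ext (pj_smul _ h5)
      · rw [Function.update_of_ne h]
    · rw [e, ix, dif_pos (show k < r by omega)] at hi
      exact lt_irrefl k hi
    · show ou (Function.update u (ix i₀ k) v (ix i₀ k)).1 (Function.update u (ix i₀ k) v _).1 = w
      rw [Function.update_self, hc]
      funext a b
      simp only [ou, v, Pi.smul_apply, smul_eq_mul]
      ring

theorem Ph_flip {u v : Fin r → Sp N} (e : (Ph i₀ r).1 u = (Ph i₀ r).1 v) :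
    ∃ ε, v = MU.flip ε u := by
  have h : ∀ i, ∃ b : Bool, v i = if b then -u i else u i := fun i => by
    rcases ou_inj (sp_ne _) (Ph_inj i₀ u v r e i i.2) with h | h
    · exact ⟨false, Subtype.ext h⟩
    · exact ⟨true, Subtype.ext h⟩
  choose ε hε using h
  exact ⟨ε, funext hε⟩

/-- The tautological line bundles on the top level. -/
abbrev Lt (N : ℕ) (i : Fin r) : Bun (tow (sq N i₀) r).T :=
  ((taut N N).pull (ev i)).pull (tow (sq N i₀) r).p

theorem sections {m : Fin r → ℕ} (hS : Sec r i₀ N m) :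
    ∃ σ : ∀ a : (i : Fin r) × Fin (m i), C(_, ((Lt i₀ N a.1).hom (Lt i₀ N i₀)).W),
      (∀ a x, ((Lt i₀ N a.1).hom (Lt i₀ N i₀)).p x (σ a x) = σ a x) ∧ ∀ x, ∃ a, σ a x ≠ 0 := by
  obtain ⟨F, hF, hZ⟩ := hS
  have hq : IsQuotientMap (Ph (N := N) i₀ r).1 :=
    (Ph i₀ r).1.continuous.isClosedMap.isQuotientMap (Ph i₀ r).1.continuous (Ph_surj i₀ r le_rfl)
  let G : ((i : Fin r) × Fin (m i)) → C(Fin r → Sp N, (Fin N → ℂ) →L[ℂ] Fin N → ℂ) := fun a =>
    ⟨fun u => mv fun k l => F a.1 a.2 u * ((u i₀).1 k * (starRingEnd ℂ) ((u a.1).1 l)),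
      mv_cont.comp (continuous_pi fun k => continuous_pi fun l => (F a.1 a.2).continuous.mul
        ((co_cont _ k).mul (Complex.continuous_conj.comp (co_cont _ l))))⟩
  have hG : ∀ a, Function.FactorsThrough (G a) (Ph (N := N) i₀ r).1 := fun a u v e => by
    obtain ⟨ε, rfl⟩ := Ph_flip i₀ e
    refine congrArg mv (funext fun k => funext fun l => ?_)
    rw [hF]
    cases h0 : ε i₀ <;> cases h1 : ε a.1 <;> simp [MU.flip, h0, h1]
  have hA : ∀ a u y, G a u y =
      (F a.1 a.2 u * ∑ l, (starRingEnd ℂ) ((u a.1).1 l) * y l) • (u i₀).1 := fun a u y => by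
    funext k
    show mv _ y k = _
    rw [mv_apply, Pi.smul_apply, smul_eq_mul, Finset.mul_sum, Finset.sum_mul]
    exact Finset.sum_congr rfl fun l _ => by ring
  have hN : ∀ b : Fin N → ℂ, ∑ j, (starRingEnd ℂ) (b j) * b j =
      ((∑ k, Complex.normSq (b k) : ℝ) : ℂ) := fun b => by
    rw [Complex.ofReal_sum]
    exact Finset.sum_congr rfl fun j _ => Complex.normSq_eq_conj_mul_self.symm
  refine ⟨fun a => hq.lift (G a) (hG a), fun a x => ?_, fun x => ?_⟩ <;>
    obtain ⟨u, rfl⟩ := hq.surjective x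
  · have e : hq.lift (G a) (hG a) ((Ph i₀ r).1 u) = G a u :=
      congrArg (fun φ : C(_, _) => φ u) (hq.lift_comp (G a) (hG a))
    show mv ((tow (sq N i₀) r).p ((Ph i₀ r).1 u) i₀).1 ∘L hq.lift (G a) (hG a) ((Ph i₀ r).1 u) ∘L
      mv ((tow (sq N i₀) r).p ((Ph i₀ r).1 u) a.1).1 = hq.lift (G a) (hG a) ((Ph i₀ r).1 u)
    rw [e, (Ph i₀ r).2, (Ph i₀ r).2]
    refine ContinuousLinearMap.ext fun y => ?_
    show mv (pj (u i₀).1) (G a u (mv (pj (u a.1).1) y)) = G a u y
    rw [mv_pj _ y, map_smul, map_smul, hA, hA, map_smul, mv_pj_self (sp_ne _), smul_smul, hN]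
    congr 1
    have := Complex.ofReal_ne_zero.2 (nsq_pos (sp_ne (u a.1))).ne'
    field_simp
  · obtain ⟨i, c, h⟩ := hZ u
    refine ⟨⟨i, c⟩, fun e => ?_⟩
    have e' : G ⟨i, c⟩ u = 0 :=
      (congrArg (fun φ : C(_, _) => φ u) (hq.lift_comp (G ⟨i, c⟩) (hG _))).symm.trans e
    have := hA ⟨i, c⟩ u (u i).1
    rw [e', hN] at this
    exact smul_ne_zero (mul_ne_zero h (Complex.ofReal_ne_zero.2 (nsq_pos (sp_ne (u i))).ne'))
      (sp_ne (u i₀)) this.symm

end

end Pool.Agent.MP_826def_gt.BN
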